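import Pool.Agent.MP_1246c0_nt.H25.SpecA
import Pool.Agent.MP_1246c0_nt.H95.DAT
import Pool.Agent.MP_1246c0_nt.H14.RF

/-! Data of symbols with prescribed primes. -/

namespace Pool.Agent.MP_1246c0_nt.H25

open NumberField IsDedekindDomain Finset Pool.Agent.MP_db5b97_nt.H85
open Pool.Agent.MP_1246c0_nt.H12

namespace DT2

variable {F : Type} [Field F] [NumberField F]

theorem qv_sub (ra : SRA) (w : Pr F 2) {a b : Un F} (ha : ord w.1 a = 0)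
    (h : ord w.1 (a - 2 • b) = 0) : qv w.1 (a - 2 • b).val = qv w.1 a.val := by
  have hb : ord w.1 b = 0 := by
    rw [map_sub, ha, map_nsmul, two_nsmul] at h
    omega
  have e : a - 2 • b = a + (-2 : ℤ) • b := by
    rw [neg_smul, sub_eq_add_neg, two_zsmul, two_nsmul]
  have h2 : ord w.1 ((-2 : ℤ) • b) = 0 := by rw [map_zsmul, hb, smul_zero]
  have h3 : ((-2 : ℤ) : F2) = 0 := by decide
  rw [e, Un.val_add, ra.qmul F w _ _ ((ord_eq_zero_iff _ _).1 ha) ((ord_eq_zero_iff _ _).1 h2),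
    RF.qv_zsmul ra w hb, h3, zero_mul, add_zero]

theorem odd_iff {p : Pr F 2} {y : Un F} (h : RF.At p y) (z : Un F) (w : Pr F 2) :
    Odd (ord w.1 (y - 2 • z)) ↔ w = p := by
  rw [map_sub, map_nsmul, two_nsmul, Int.odd_sub, iff_true_intro (Even.add_self _), iff_true]
  constructor
  · intro hw
    by_contra hne
    rw [h.off _ fun e => hne (Subtype.ext e)] at hw
    simp at hw
  · rintro rfl
    exact ZMod.intCast_eq_one_iff_odd.1 h.odd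

omit [NumberField F] in
theorem neg_sub (ρ : F →+* ℝ) (y z : Un F) : ρ (y - 2 • z).val < 0 ↔ ρ y.val < 0 := by
  have h : 0 < ρ z.val ^ 2 := by
    have := (map_ne_zero ρ).2 z.val_ne
    positivity
  rw [Un.val_sub, Un.val_nsmul, map_div₀, map_pow, div_lt_iff₀ h, zero_mul]

variable {n : ℕ} {θ : F} {γ : F ≃ₐ[ℚ] F}

theorem sgn (un : SUN) (ra : SRA) (re : SRE) (c : Cy F n θ γ) {l : ℕ} (hl : l.Prime)
    (ψ : 𝓞 F →+* ZMod l) {p : Pr F 2} (hp : p.1.asIdeal = RingHom.ker ψ) {y z : Un F}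
    (hy : RF.At p y) (hz : y - 2 • z ∈ Ray F 2 2) {η : 𝓞 F} (hη : IsUnit η) {ρ₀ : F →+* ℝ}
    (h1 : ρ₀ η < 0) (h2 : ∀ ρ : F →+* ℝ, ρ ≠ ρ₀ → 0 < ρ η) (g : F ≃ₐ[ℚ] F) :
    (if ρ₀ (g (y - 2 • z).val) < 0 then 1 else 0) = qr (ψ (g⁻¹ • η)) := by
  classical
  have h0 : g⁻¹ • η ≠ 0 := fun h => hη.ne_zero ((smul_eq_zero_iff_eq _).1 h)
  have hu : mkI _ h0 ∈ Eu F := by
    obtain ⟨u, hu⟩ := hη.map (MulSemiringAction.toRingHom _ (𝓞 F) g⁻¹)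
    exact (un.int F _).2 ⟨u, by rw [hu]; rfl⟩
  have h3 := re.van F n θ γ c _ (mem_Ru_iff_ord.2 fun w => RF.mem_Eu.1 hu _) y z hz
  have hs : ∀ ρ : F →+* ℝ, ρ (mkI _ h0).val < 0 ↔ ρ = DAT.tw' ρ₀ g := fun ρ => by
    have e : ρ (mkI _ h0).val = DAT.tw' ρ g⁻¹ η := rfl
    rw [e]
    constructor
    · intro h
      by_contra h4
      refine (h2 _ fun h5 => h4 ?_).not_gt h
      rw [← h5]
      ext x
      simp [DAT.tw']
    · rintro rfl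
      simpa [DAT.tw'] using h1
  rw [RF.dy_unit ra hu hy, finsum_eq_single _ (DAT.tw' ρ₀ g) fun ρ hρ =>
    if_neg fun h => hρ ((hs ρ).1 h.1), val_mkI, ra.qhom F _ l ψ hl hp, CharTwo.add_eq_zero] at h3
  rw [h3]
  have e : ρ₀ (g (y - 2 • z).val) < 0 ↔ DAT.tw' ρ₀ g y.val < 0 := neg_sub (DAT.tw' ρ₀ g) y z
  have h4 : DAT.tw' ρ₀ g ((g⁻¹ • η : 𝓞 F) : F) < 0 := (hs _).2 rfl
  simp only [e, h4, true_and]

theorem ne (dec : SDEC) (c : Cy F n θ γ) (cy : SCY) {l q : ℕ} (hl : Gd n l) (hq : Gd n q)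
    (ψ : 𝓞 F →+* ZMod l) (ψ' : 𝓞 F →+* ZMod q) (k : ℕ)
    (hk : q = l → RingHom.ker ψ = RingHom.ker ψ' ∧ γ ^ k ≠ 1) :
    RingHom.ker ψ ≠ RingHom.ker (ψ'.comp (MulSemiringAction.toRingHom _ (𝓞 F) (γ ^ k))) := by
  intro h
  have h3 : q = l := by
    have h4 := DAT.mem_ker ψ
    rw [h, RingHom.mem_ker, map_natCast] at h4
    exact (Nat.prime_dvd_prime_iff_eq hq.1 hl.1).1 ((ZMod.natCast_eq_zero_iff _ _).1 h4)
  obtain ⟨h4, h5⟩ := hk h3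
  let w : Sp F := ⟨RingHom.ker ψ, (DAT.ker_max hl.1 ψ).isPrime, DAT.ker_ne hl.1 ψ⟩
  have h6 : γ ^ k • w = w := by
    refine HeightOneSpectrum.ext (Ideal.ext fun x => ?_)
    rw [mem_smul_iff]
    change _ ∈ RingHom.ker ψ ↔ x ∈ RingHom.ker ψ
    conv_lhs => rw [h]
    rw [h4]
    simp [RingHom.mem_ker]
  have h7 := ((dec.dec F n θ γ c l w (DAT.gd0 hl) (DAT.mem_ker ψ)).1 k).1 h6
  rw [min_eq_right hl.2.2, ← (cy.gal F n θ γ c).2.2.1] at h7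
  exact h5 (orderOf_dvd_iff_pow_eq_one.1 h7)

theorem sym (un : SUN) (ra : SRA) (re : SRE) (c : Cy F n θ γ) {l q h : ℕ} (hl : l.Prime)
    (hq : q.Prime) (hq2 : q ≠ 2) (hh : Odd h) (ψ : 𝓞 F →+* ZMod l) (ψ' : 𝓞 F →+* ZMod q)
    {p w : Pr F 2} (hp : p.1.asIdeal = RingHom.ker ψ) (hw : w.1.asIdeal = RingHom.ker ψ')
    {a π : 𝓞 F} (ha : a ≠ 0) {u z : Un F} (hu : u ∈ Eu F) (hx : RF.At p (mkI a ha))
    (hz : mkI a ha + u - 2 • z ∈ Ray F 2 2) (hπ : Ideal.span {π} = RingHom.ker ψ' ^ h)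
    (pos : ∀ ρ : F →+* ℝ, 0 < ρ π) (g : F ≃ₐ[ℚ] F)
    (hne : RingHom.ker ψ ≠ RingHom.ker (ψ'.comp (MulSemiringAction.toRingHom _ (𝓞 F) g)))
    (y : Un F) (hy : ord w.1 (g • (mkI a ha + u - 2 • z) - 2 • y) = 0) :
    qv w.1 (g • (mkI a ha + u - 2 • z) - 2 • y).val = qr (ψ (g⁻¹ • π)) := by
  obtain ⟨p', h0, hp', hy'⟩ := RF.exists_at hq hq2 hh _ (RF.span_smul g ψ' hπ)
  have hpp : p ≠ p' := fun e => hne (by rw [← hp, ← hp', e])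
  obtain ⟨v, hv⟩ := (un.int F u).1 hu
  have h1 := re.van F n θ γ c _ hy'.ru _ z hz
  have e1 : (mkI a ha + u).val = ((a * v : 𝓞 F) : F) := by simp [hv]
  rw [ra.symm, RF.dy_two ra (hx.add hu) hy' hpp fun ρ => pos (DAT.tw' ρ g⁻¹), CharTwo.add_eq_zero,
    e1, val_mkI, ra.qhom F _ l ψ hl hp, ra.qhom F _ q _ hq hp'] at h1
  have e2 : g • (mkI a ha + u - 2 • z) - 2 • y = g • (mkI a ha + u) - 2 • (g • z + y) := by
    rw [smul_sub, smul_comm g, smul_add (2 : ℕ), sub_sub]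
  have e3 : (g • (mkI a ha + u)).val = ((g • (a * v) : 𝓞 F) : F) := by
    rw [Un.val_smul, e1]
    rfl
  have h2 : ord w.1 (g • (mkI a ha + u)) = 0 := by
    have h3 := (hx.add hu).off p'.1 fun e => hpp (Subtype.ext e).symm
    rw [ord_eq_zero_iff, e1, val_eq_one_iff, hp'] at h3
    rw [ord_eq_zero_iff, e3, val_eq_one_iff, hw]
    exact h3
  rw [e2] at hy ⊢
  rw [qv_sub ra w h2 hy, e3, ra.qhom F _ q ψ' hq hw, ← h1]
  rfl

end DT2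

open DT2 in
theorem rowDT2 : OfDT2 := by
  intro cy dec un od _ ra re F _ _ n θ γ ρ₀ ψ c hψ
  obtain ⟨η, hη⟩ := DAT.exists_unit un c {ρ₀}
  have hh := od F n θ γ c
  choose φ hφ using hψ
  have h : ∀ l : ℕ, ∃ (a : 𝓞 F) (α : Un F), ∀ hl : Gd n l,
      Ideal.span {a} = RingHom.ker (φ l hl) ^ classNumber F ∧ (∀ ρ : F →+* ℝ, 0 < ρ a) ∧
      ∃ (p : Pr F 2) (ha : a ≠ 0) (u z : Un F), p.1.asIdeal = RingHom.ker (φ l hl) ∧
        RF.At p (mkI a ha) ∧ u ∈ Eu F ∧ α = mkI a ha + u - 2 • z ∧ α ∈ Ray F 2 2 := fun l => by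
    by_cases hl : Gd n l
    · obtain ⟨a, h1, h2⟩ := DAT.exists_gen un c (DAT.ker_ne hl.1 (φ l hl))
      obtain ⟨p, ha, hp, hx⟩ := RF.exists_at hl.1 hl.2.1 hh _ h1
      obtain ⟨u, hu, z, hz⟩ := re.prim F n θ γ c _ hx.ru
      exact ⟨a, _, fun _ => ⟨h1, h2, p, ha, u, z, hp, hx, hu, rfl, hz⟩⟩
    · exact ⟨0, 0, fun h => absurd h hl⟩
  choose π α h using h
  have hk : ∀ l (hl : Gd n l) (w : Pr F 2),
      (∀ x, x ∈ w.1.asIdeal ↔ ψ l x = 0) ↔ w.1.asIdeal = RingHom.ker (φ l hl) := fun l hl w => by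
    simp only [hφ l hl, Ideal.ext_iff, RingHom.mem_ker]
  refine ⟨η, classNumber F, π, α, η.isUnit, (hη ρ₀).1 rfl, fun ρ hρ => (hη ρ).2 hρ, hh,
    fun l hl => ?_⟩
  obtain ⟨h1, h2, p, ha, u, z, hp, hx, hu, e, hz⟩ := h l hl
  refine ⟨?_, h2, hz, fun w => ?_, fun k => ?_, fun q k w y hq hw hqk hy => ?_⟩
  · rw [h1, ← Ideal.span_eq (RingHom.ker (φ l hl))]
    congr 2
    ext x
    simp [hφ l hl, RingHom.mem_ker]
  · rw [e, odd_iff (hx.add hu), hk l hl, ← hp]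
    exact ⟨fun e => by rw [e], fun e => Subtype.ext (HeightOneSpectrum.ext e)⟩
  · rw [e] at hz ⊢
    rw [hφ l hl, inv_pow]
    exact sgn un ra re c hl.1 _ hp (hx.add hu) hz η.isUnit ((hη ρ₀).1 rfl)
      (fun ρ hρ => (hη ρ).2 hρ) _
  · rw [e] at hz hy ⊢
    rw [hφ l hl, inv_pow]
    refine sym un ra re c hl.1 hq.1 hq.2.1 hh _ (φ q hq) hp ((hk q hq w).1 hw) ha hu hx hz
      (h q hq).1 (h q hq).2.1 _ (ne dec c cy hl hq _ _ k fun e => ⟨?_, hqk e⟩) y hy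
    subst e
    rfl

end Pool.Agent.MP_1246c0_nt.H25
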