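import Pool.Agent.MP_1246c0_nt.H25.SpecG

/-! Coding by few functions of fewer variables. -/

namespace Pool.Agent.MP_1246c0_nt.H25

open Finset Function Pool.Agent.MP_1246c0_nt.H12

namespace COD

open Classical in
theorem greedy {X : Type} [Fintype X] [Nonempty X] (R : X → X → Prop) {δ : ℝ} (h1 : δ ≤ 1)
    (n : ℕ) : ∀ S : Finset X, (∀ x ∈ S, δ * Fintype.card X ≤ (univ.filter (R x)).card) →
    ∃ A : Fin n → X, ((S.filter fun x => ∀ i, ¬R x (A i)).card : ℝ) ≤ (1 - δ) ^ n * S.card := by
  induction n with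
  | zero => exact fun S _ => ⟨Fin.elim0, by simp⟩
  | succ n ih =>
    intro S hS
    have h2 : ∑ _a : X, δ * S.card ≤ ∑ a : X, ((S.filter fun x => R x a).card : ℝ) := by
      simp only [card_filter, Nat.cast_sum] at hS ⊢
      rw [sum_comm]
      refine le_trans (le_of_eq ?_) (sum_le_sum hS)
      simp only [sum_const, nsmul_eq_mul, card_univ]
      ring
    obtain ⟨a, -, ha⟩ := exists_le_of_sum_le univ_nonempty h2
    obtain ⟨A, hA⟩ := ih (S.filter fun x => ¬R x a) fun x hx => hS x (mem_filter.1 hx).1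
    have h3 : (((S.filter fun x => R x a).card : ℝ) + (S.filter fun x => ¬R x a).card) = S.card := by
      exact_mod_cast card_filter_add_card_filter_not (s := S) fun x => R x a
    refine ⟨Fin.cons a A, le_trans (le_of_eq ?_) (hA.trans ?_)⟩
    · rw [filter_filter]
      simp only [Fin.forall_fin_succ, Fin.cons_zero, Fin.cons_succ]
    · rw [pow_succ, mul_assoc]
      exact mul_le_mul_of_nonneg_left (by linarith) (pow_nonneg (by linarith) _)

theorem cover {X : Type} [Fintype X] [Nonempty X] (R : X → X → Prop) {δ : ℝ} (h1 : δ ≤ 1)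
    (n : ℕ) : ∃ (A : Fin n → X) (U : Finset X), (U.card : ℝ) ≤ (1 - δ) ^ n * Nat.card X ∧
      ∀ x ∉ U, δ * Nat.card X ≤ Nat.card {a // R x a} → ∃ i, R x (A i) := by
  classical
  obtain ⟨A, hA⟩ := greedy R h1 n
    (univ.filter fun x => δ * Fintype.card X ≤ (univ.filter (R x)).card)
    fun x hx => (mem_filter.1 hx).2
  refine ⟨A, _, hA.trans (mul_le_mul_of_nonneg_left ?_ (pow_nonneg (by linarith) _)),
    fun x hx h => ?_⟩
  · rw [Nat.card_eq_fintype_card]
    exact_mod_cast card_le_univ _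
  · rw [Nat.card_eq_fintype_card, Nat.card_eq_fintype_card, Fintype.card_subtype] at h
    by_contra h2
    simp only [mem_filter, mem_univ, true_and, not_and] at hx
    exact hx h (not_exists.1 h2)

variable {D Z : Type} [Fintype D] [DecidableEq D] {K n : ℕ} (ty : (D → Z) → Option (Fin K))
  (rk : Fin K → ℕ) (C : Fin K → Finset D → (D → Z) → (D → Z) → Prop) (F : (D → Z) → F2)
  (t0 : Fin K) (A : Fin (n + 1) → D → Z)

/-- all proper faces are good -/
def Cv (t : Fin K) (a x : D → Z) : Prop :=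
  ∀ W, W ≠ univ → ty (W.piecewise x a) = some t ∧ C t W a x

open Classical in
/-- the bits -/
noncomputable def bit (x : D → Z) (q : Fin (n + 1) × Finset D × Option (Fin K)) : F2 :=
  if q.2.1 = univ then 0 else q.2.2.elim (F (q.2.1.piecewise x (A q.1))) fun t =>
    if ty (q.2.1.piecewise x (A q.1)) = some t ∧ C t q.2.1 (A q.1) x then 1 else 0

/-- reading the bits -/
def cb (b : Fin (n + 1) × Finset D × Option (Fin K) → F2) (t : Fin K) (i : Fin (n + 1)) : Prop :=
  ∀ W, W ≠ univ → b (i, W, some t) = 1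

open Classical in
/-- decoding -/
noncomputable def dec (b : Fin (n + 1) × Finset D × Option (Fin K) → F2) :
    Fin (n + 1) × F2 × F2 :=
  (Classical.epsilon (cb b t0),
    if (∃ i, cb b t0 i) ∧ ∀ t, rk t0 < rk t → ¬∃ i, cb b t i then 1 else 0,
    ∑ W ∈ (univ : Finset (Finset D)).erase univ, b (Classical.epsilon (cb b t0), W, none))

theorem cb_bit (x : D → Z) (t : Fin K) (i : Fin (n + 1)) :
    cb (bit ty C F A x) t i ↔ Cv ty C t (A i) x :=
  forall_congr' fun W => forall_congr' fun hW => by simp [bit, hW]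

theorem agree {H : (D → Z) → (D → Z) → F2} (h : Cl ty rk C F H t0) (x : D → Z)
    (hx : ∀ t, ty x = some t → ∃ i, Cv ty C t (A i) x) :
    ind (ty x = some t0) * sg (F x) = ind ((dec rk t0 (bit ty C F A x)).2.1 = 1) *
      sg ((dec rk t0 (bit ty C F A x)).2.2 + H (A (dec rk t0 (bit ty C F A x)).1) x) := by
  by_cases h0 : ty x = some t0
  · have h1 : ∃ i, cb (bit ty C F A x) t0 i := by simpa only [cb_bit] using hx t0 h0
    have h2 : ∀ t, rk t0 < rk t → ¬∃ i, cb (bit ty C F A x) t i := by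
      rintro t ht ⟨i, hi⟩
      obtain ⟨t', e, le, -⟩ := h t _ _ ((cb_bit ty C F A x t i).1 hi)
      rw [h0, Option.some_inj] at e
      subst e
      omega
    obtain ⟨t', e, -, h3⟩ := h t0 _ _ ((cb_bit ty C F A x t0 _).1 (Classical.epsilon_spec h1))
    rw [h0, Option.some_inj] at e
    subst e
    rw [(h3 rfl rfl).2]
    simp only [dec, if_pos (And.intro h1 h2), ind, if_pos h0, if_true]
    rw [sum_congr rfl fun W hW => (show bit ty C F A x (_, W, none) = _ from
      if_neg (ne_of_mem_erase hW))]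
    rfl
  · have h1 : ¬((∃ i, cb (bit ty C F A x) t0 i) ∧
        ∀ t, rk t0 < rk t → ¬∃ i, cb (bit ty C F A x) t i) := by
      rintro ⟨⟨i, hi⟩, h2⟩
      obtain ⟨t', e, le, h3⟩ := h t0 _ _ ((cb_bit ty C F A x t0 i).1 hi)
      have h4 : ¬rk t0 < rk t' := fun lt => h2 t' lt (by simpa only [cb_bit] using hx t' e)
      exact h0 ((h3 rfl (by omega)).1 ▸ e)
    simp only [dec, if_neg h1, ind, if_neg h0, zero_ne_one, if_false, zero_mul]

theorem bit_update {B : ℕ} (h : ∀ t, As (fun x => ty x = some t) (C t) B) (x : D → Z) (z : Z)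
    (q : Fin (n + 1) × Finset D × Option (Fin K)) {o : D} (ho : q.2.1 ≠ univ → o ∉ q.2.1) :
    bit ty C F A (update x o z) q = bit ty C F A x q := by
  classical
  obtain ⟨i, W, t⟩ := q
  by_cases hW : W = univ
  · simp [bit, hW]
  have h1 : ∀ s ∈ W, update x o z s = x s := fun s hs =>
    update_of_ne (fun e : s = o => ho hW (by rwa [← e])) _ _
  have h2 : W.piecewise (update x o z) (A i) = W.piecewise x (A i) :=
    piecewise_congr _ h1 fun _ _ => rfl
  have h3 : ∀ t, C t W (A i) (update x o z) ↔ C t W (A i) x := fun t =>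
    ⟨(h t).loc _ _ _ _ h1, (h t).loc _ _ _ _ fun s hs => (h1 s hs).symm⟩
  cases t with
  | none => simp only [bit, h2, Option.elim]
  | some t =>
    simp only [bit, Option.elim, if_neg hW]
    exact if_congr (by rw [h2, h3]) rfl rfl

theorem bd (p : Prop) (x : F2) : |ind p * sg x| ≤ 1 := by
  unfold ind sg
  split_ifs <;> simp

end COD

open COD in
theorem rowCOD : OfCOD := by
  intro den d B K η hη
  classical
  have h0 : 0 < η / (2 * (K + 1)) := by positivity
  obtain ⟨δ, hδ, den⟩ := den d B _ h0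
  have h1 : min δ 1 ≤ 1 := min_le_right _ _
  obtain ⟨n, hn⟩ := exists_pow_lt_of_lt_one h0 (sub_lt_self 1 (lt_min hδ one_pos))
  refine ⟨n + 1, (n + 1) * (2 ^ d * (K + 1)), fun D Z _ _ _ _ _ ty rk C F H t0 hd as cl => ?_⟩
  obtain ⟨A, U, hA, hU⟩ := cover (fun x a : D → Z =>
    ∃ t, ty x = some t ∧ Gf (fun x => ty x = some t) (C t) univ a x) h1 (n + 1)
  obtain ⟨s⟩ := Embedding.nonempty_of_card_le (α := Fin (n + 1) × Finset D × Option (Fin K))
    (β := Fin ((n + 1) * (2 ^ d * (K + 1)))) (by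
      simp only [Fintype.card_prod, Fintype.card_fin, Fintype.card_finset, Fintype.card_option]
      gcongr
      norm_num)
  have h2 : ∀ W : Finset D, ∃ o, W ≠ univ → o ∉ W := fun W => by
    by_cases hW : W = univ
    · exact ⟨Classical.arbitrary D, fun h => absurd hW h⟩
    · obtain ⟨o, ho⟩ := not_forall.1 fun h => hW (eq_univ_of_forall h)
      exact ⟨o, fun _ => ho⟩
  choose oc hoc using h2
  refine ⟨A, fun c => oc (invFun s c).2.1, fun x c => bit ty C F A x (invFun s c),
    fun b => dec rk t0 (b ∘ s), fun c x z => bit_update ty C F A as x z _ (hoc _), ?_⟩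
  have h3 : ∀ x, (fun c => bit ty C F A x (invFun s c)) ∘ s = bit ty C F A x := fun x =>
    funext fun q => congrArg _ (leftInverse_invFun s.injective q)
  simp only [h3]
  let P : Fin K → Finset (D → Z) := fun t => univ.filter fun x => ty x = some t ∧
    (Nat.card {a // Gf (fun x => ty x = some t) (C t) univ a x} : ℝ) < δ * Nat.card (D → Z)
  have hP : ∀ t, ((P t).card : ℝ) ≤ η / (2 * (K + 1)) * Nat.card (D → Z) := fun t => by
    have := den D Z _ (C t) hd (as t)
    rwa [Nat.card_eq_fintype_card, Fintype.card_subtype] at this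
  have h4 : (U.card : ℝ) ≤ η / (2 * (K + 1)) * Nat.card (D → Z) :=
    hA.trans (mul_le_mul_of_nonneg_right ((pow_le_pow_of_le_one (by linarith)
      (sub_le_self 1 (le_min hδ.le zero_le_one)) n.le_succ).trans hn.le) (by positivity))
  have h5 : ∀ x ∉ univ.biUnion P ∪ U, ∀ t, ty x = some t → ∃ i, Cv ty C t (A i) x := by
    intro x hx t ht
    rw [mem_union, not_or, mem_biUnion, not_exists] at hx
    have h6 : δ * Nat.card (D → Z) ≤
        (Nat.card {a // Gf (fun x => ty x = some t) (C t) univ a x} : ℝ) :=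
      not_lt.1 fun h => hx.1 t ⟨mem_univ _, mem_filter.2 ⟨mem_univ _, ht, h⟩⟩
    obtain ⟨i, t', e, g⟩ := hU x hx.2 ((mul_le_mul_of_nonneg_right (min_le_left _ _)
      (by positivity)).trans (h6.trans (Nat.cast_le.2 (Nat.card_le_card_of_injective
        (Subtype.map id fun a ha => ⟨t, ht, ha⟩) (Subtype.map_injective _ injective_id)))))
    rw [ht, Option.some_inj] at e
    subst e
    exact ⟨i, fun W _ => g W (subset_univ _)⟩
  have h6 : ((univ.biUnion P ∪ U).card : ℝ) ≤ (K + 1) * (η / (2 * (K + 1)) * Nat.card (D → Z)) := by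
    have a : ((univ.biUnion P ∪ U).card : ℝ) ≤ ∑ t, ((P t).card : ℝ) + U.card := by
      exact_mod_cast (card_union_le _ _).trans (Nat.add_le_add_right card_biUnion_le _)
    have b := sum_le_sum fun t (_ : t ∈ univ) => hP t
    rw [sum_const, card_univ, Fintype.card_fin, nsmul_eq_mul] at b
    linarith
  rw [← sum_sub_distrib, ← sum_subset (subset_univ (univ.biUnion P ∪ U)) fun x _ hx =>
    sub_eq_zero.2 (agree ty rk C F t0 A cl x (h5 x hx))]
  refine (abs_sum_le_sum_abs _ _).trans ((sum_le_card_nsmul _ _ 2 fun x _ =>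
    (abs_sub _ _).trans ((add_le_add (bd _ _) (bd _ _)).trans one_add_one_eq_two.le)).trans ?_)
  rw [nsmul_eq_mul]
  refine (mul_le_mul_of_nonneg_right h6 zero_le_two).trans (le_of_eq ?_)
  field_simp

end Pool.Agent.MP_1246c0_nt.H25
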